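import Pool.Agent.Helper49.LC.St

/-!
# Project LC, module H2C (the image of the plane under a limit of Hamiltonian diffeomorphisms)
-/

set_option autoImplicit false

open scoped ContDiff

namespace Pool.Agent.Helper11.LC

open Pool.Agent.Helper14.LK Pool.Agent.Helper49.LC

/-- H2C -/
theorem hH2C (hHMS : StHMS) (hGRP : StGRP) : StH2C := by
  intro n ι Φ hΦ hlim ε hε
  obtain ⟨H, φ, hH, hφ⟩ := hlim ε hε
  obtain ⟨r, g, hr, hB⟩ := hHMS n H φ hH
  obtain ⟨hSD, hout, -⟩ := hGRP.2.2.2.2.2.1 n 0 r (φ 1) g hB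
  have hI : ∀ x : EE n, HasFDerivAt (fun x : EE n => ((x, 0) : WW n))
      (ContinuousLinearMap.inl ℝ (EE n) (EE n)) x := fun x =>
    (ContinuousLinearMap.inl ℝ (EE n) (EE n)).hasFDerivAt
  have hIs : ContDiff ℝ ∞ (fun x : EE n => ((x, 0) : WW n)) :=
    (ContinuousLinearMap.inl ℝ (EE n) (EE n)).contDiff
  have hd : ∀ x : EE n, HasFDerivAt (fun x : EE n => φ 1 (x, 0))
      ((fderiv ℝ (φ 1) (x, 0)).comp (ContinuousLinearMap.inl ℝ (EE n) (EE n))) x := fun x =>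
    HasFDerivAt.comp x ((hSD.sm.differentiable (by simp) (x, 0)).hasFDerivAt) (hI x)
  have hd1 : ∀ x u : EE n, fderiv ℝ (fun x : EE n => φ 1 (x, 0)) x u =
      fderiv ℝ (φ 1) (x, 0) (u, 0) := by
    intro x u
    rw [(hd x).fderiv]
    rfl
  refine ⟨fun x => φ 1 (x, 0), hSD.sm.comp hIs, ?_, ?_, ?_, ?_, ?_, ?_⟩
  · intro x u v
    rw [hd1, hd1, hSD.sy]
    simp [om]
  · intro x u hu
    rw [hd1] at hu
    have h1 : HasFDerivAt (fun w => g (φ 1 w))
        ((fderiv ℝ g (φ 1 (x, 0))).comp (fderiv ℝ (φ 1) (x, 0))) ((x, 0) : WW n) :=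
      HasFDerivAt.comp _ ((hSD.smi.differentiable (by simp) _).hasFDerivAt)
        ((hSD.sm.differentiable (by simp) _).hasFDerivAt)
    have h2 : (fun w => g (φ 1 w)) = fun w => w := funext hSD.left
    rw [h2] at h1
    have h3 := h1.unique (hasFDerivAt_id ((x, 0) : WW n))
    have h4 : fderiv ℝ g (φ 1 (x, 0)) (fderiv ℝ (φ 1) (x, 0) (u, 0)) = (u, 0) :=
      DFunLike.congr_fun h3 ((u, 0) : WW n)
    rw [hu, map_zero] at h4
    exact (congrArg Prod.fst h4).symm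
  · intro x y hxy
    have h1 : g (φ 1 (x, 0)) = g (φ 1 (y, 0)) := congrArg g hxy
    rw [hSD.left, hSD.left] at h1
    exact congrArg Prod.fst h1
  · refine ⟨r, fun x hx => ?_⟩
    apply (hout (x, 0) _).1
    rw [sub_zero, Prod.norm_def]
    exact hx.trans (le_max_left _ _)
  · refine ⟨H, φ, hH, ?_⟩
    ext w
    constructor
    · rintro ⟨v, hv, rfl⟩
      refine ⟨v.1, ?_⟩
      have h1 : v = (v.1, 0) := Prod.ext rfl hv
      show φ 1 (v.1, 0) = φ 1 v
      rw [← h1]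
    · rintro ⟨x, rfl⟩
      exact ⟨(x, 0), rfl, rfl⟩
  · intro x
    have h1 : Φ (x, 0) ∈ Set.range ι := by
      rw [← hΦ]
      exact ⟨(x, 0), rfl, rfl⟩
    obtain ⟨x', hx'⟩ := h1
    refine ⟨x', ?_⟩
    rw [hx']
    exact hφ (x, 0)

end Pool.Agent.Helper11.LC
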