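import Pool.Agent.Helper49.LC.St

/-!
# Project LC, module RNG (the sum of a knot and its mirror image)
-/

set_option autoImplicit false

open scoped ContDiff

namespace Pool.Agent.Helper11.LC

open Pool.Agent.Helper14.LK Pool.Agent.Helper49.LC
open Pool.Agent.Helper14.LE (hd lt mk hd_mk lt_mk mk_hd_lt ext_hd_lt inner_eq norm_sq_eq norm_hd_le
  abs_lt_le)

variable {k : ℕ}

/-- the reflection in the last coordinate -/
private noncomputable def sL : EE (k + 1) →L[ℝ] EE (k + 1) := mk.comp (hd.prod (-lt))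

private theorem sL_apply (x : EE (k + 1)) : sL x = mk (hd x, -lt x) := rfl

private theorem hd_sL (x : EE (k + 1)) : hd (sL x) = hd x := by
  rw [sL_apply, hd_mk]

private theorem lt_sL (x : EE (k + 1)) : lt (sL x) = -lt x := by
  rw [sL_apply, lt_mk]

private theorem sL_sL (x : EE (k + 1)) : sL (sL x) = x := by
  apply ext_hd_lt
  · rw [hd_sL, hd_sL]
  · rw [lt_sL, lt_sL, neg_neg]

private theorem inner_sL (x y : EE (k + 1)) : inner ℝ (sL x) (sL y) = inner ℝ x y := by
  rw [inner_eq, inner_eq x y, hd_sL, hd_sL, lt_sL, lt_sL, neg_mul_neg]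

private theorem norm_sL (x : EE (k + 1)) : ‖sL x‖ = ‖x‖ := by
  have h : ‖sL x‖ ^ 2 = ‖x‖ ^ 2 := by
    rw [norm_sq_eq, norm_sq_eq x, hd_sL, lt_sL, neg_sq]
  exact (pow_left_inj₀ (norm_nonneg _) (norm_nonneg _) two_ne_zero).1 h

private theorem sL_inj {x y : EE (k + 1)} (h : sL x = sL y) : x = y := by
  rw [← sL_sL x, ← sL_sL y, h]

/-- the reflection on pairs -/
private noncomputable def ML : WW (k + 1) →L[ℝ] WW (k + 1) :=
  (sL.comp (ContinuousLinearMap.fst ℝ _ _)).prod (sL.comp (ContinuousLinearMap.snd ℝ _ _))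

private theorem ML_apply (w : WW (k + 1)) : ML w = (sL w.1, sL w.2) := rfl

private theorem om_ML (a b : WW (k + 1)) : om (ML a) (ML b) = om a b := by
  rw [ML_apply, ML_apply]
  unfold om
  simp only [inner_sL]

private theorem ML_ML (w : WW (k + 1)) : ML (ML w) = w := by
  rw [ML_apply, ML_apply]
  simp only [sL_sL]

private theorem norm_ML (w : WW (k + 1)) : ‖ML w‖ = ‖w‖ := by
  rw [ML_apply, Prod.norm_def, Prod.norm_def]
  simp only [norm_sL]

private theorem mi_eq (ι : EE (k + 1) → WW (k + 1)) : mi ι = fun x => ML (ι (sL x)) := by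
  funext x
  unfold mi rf
  rw [ML_apply, sL_apply x, sL_apply, sL_apply, mul_zero, zero_sub]

private theorem rf_eq (T : ℝ) (w : WW (k + 1)) : rf T w = (mk (0, 2 * T), 0) + ML w := by
  rw [ML_apply]
  refine Prod.ext ?_ ?_
  · show mk (hd w.1, 2 * T - lt w.1) = mk (0, 2 * T) + sL w.1
    apply ext_hd_lt
    · rw [hd_mk, map_add, hd_mk, hd_sL, zero_add]
    · rw [lt_mk, map_add, lt_mk, lt_sL]
      exact sub_eq_add_neg _ _
  · show mk (hd w.2, -lt w.2) = 0 + sL w.2
    rw [zero_add, sL_apply]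

private theorem rf_rf (T : ℝ) (w : WW (k + 1)) : rf T (rf T w) = w := by
  unfold rf
  simp only [hd_mk, lt_mk, neg_neg, sub_sub_cancel, mk_hd_lt]

private theorem lt_rf (T : ℝ) (w : WW (k + 1)) : lt (rf T w).1 = 2 * T - lt w.1 := by
  unfold rf
  simp only [lt_mk]

private theorem kn_mi {ι : EE (k + 1) → WW (k + 1)} {R : ℝ} (h : Kn ι 0 R) : Kn (mi ι) 0 R := by
  have hd' : ∀ x u, fderiv ℝ (mi ι) x u = ML (fderiv ℝ ι (sL x) (sL u)) := by
    intro x u
    have h1 : HasFDerivAt ι (fderiv ℝ ι (sL x)) (sL x) :=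
      (h.sm.differentiable (by simp) _).hasFDerivAt
    have h2 : HasFDerivAt (fun x => ML (ι (sL x))) (ML.comp ((fderiv ℝ ι (sL x)).comp sL)) x :=
      ML.hasFDerivAt.comp x (h1.comp x sL.hasFDerivAt)
    rw [mi_eq, h2.fderiv]
    rfl
  refine ⟨h.pos, ?_, ?_, ?_, ?_, ?_, ?_⟩
  · rw [mi_eq]
    exact ML.contDiff.comp (h.sm.comp sL.contDiff)
  · intro x u v
    rw [hd', hd', om_ML]
    exact h.iso _ _ _
  · intro x u hu
    rw [hd'] at hu
    have h1 : fderiv ℝ ι (sL x) (sL u) = 0 := by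
      rw [← ML_ML (fderiv ℝ ι (sL x) (sL u)), hu, map_zero]
    have h2 := h.imm _ _ h1
    rw [← sL_sL u, h2, map_zero]
  · intro x y hxy
    rw [mi_eq] at hxy
    have h1 : ι (sL x) = ι (sL y) := by
      rw [← ML_ML (ι (sL x)), ← ML_ML (ι (sL y))]
      exact congrArg _ hxy
    exact sL_inj (h.inj h1)
  · intro x hx
    rw [mi_eq]
    show ML (ι (sL x)) = (x, 0)
    rw [h.far (sL x) (by rw [sub_zero, norm_sL]; rwa [sub_zero] at hx), ML_apply]
    simp only [sL_sL, map_zero]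
  · intro x hx
    rw [mi_eq]
    show ‖ML (ι (sL x)) - (0, 0)‖ ≤ R
    have h1 := h.near (sL x) (by rw [sub_zero, norm_sL]; rwa [sub_zero] at hx)
    have h0 : ((0 : EE (k + 1)), (0 : EE (k + 1))) = (0 : WW (k + 1)) := rfl
    rw [h0, sub_zero] at h1 ⊢
    rwa [norm_ML]

private theorem pc_eq (ι : EE (k + 1) → WW (k + 1)) (T : ℝ) (x : EE (k + 1)) :
    pc (mk (0, 2 * T)) 1 (mi ι) x = rf T (ι (mk (hd x, 2 * T - lt x))) := by
  unfold pc
  rw [mi_eq, rf_eq, one_smul, inv_one, one_smul]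
  have h1 : sL (x - mk (0, 2 * T)) = mk (hd x, 2 * T - lt x) := by
    apply ext_hd_lt
    · rw [hd_sL, hd_mk, map_sub, hd_mk, sub_zero]
    · rw [lt_sL, lt_mk, map_sub, lt_mk, neg_sub]
  show (mk (0, 2 * T), 0) + ML (ι (sL (x - mk (0, 2 * T)))) = _
  rw [h1]

/-- RNG -/
theorem hRNG : StRNG := by
  intro k ι R h
  refine ⟨kn_mi h, ?_⟩
  intro T hT w
  have hR := h.pos
  -- points of the knot
  have hfar : ∀ x : EE (k + 1), R ≤ |lt x| → ι x = (x, 0) := by
    intro x hx
    apply h.far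
    rw [sub_zero]
    exact hx.trans (abs_lt_le x)
  have hlow : ∀ x : EE (k + 1), lt x ≤ T → lt (ι x).1 ≤ T := by
    intro x hx
    rcases le_total R ‖x - 0‖ with h1 | h1
    · rw [h.far x h1]
      exact hx
    · have h2 := h.near x h1
      have h0 : ((0 : EE (k + 1)), (0 : EE (k + 1))) = (0 : WW (k + 1)) := rfl
      rw [h0, sub_zero] at h2
      have h3 := abs_lt_le (ι x).1
      have h4 := norm_fst_le (ι x)
      have h5 := le_abs_self (lt (ι x).1)
      linarith
  have hup : ∀ x : EE (k + 1), lt (ι x).1 ≤ T → lt x ≤ T := by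
    intro x hx
    by_contra hlt
    have h1 : T < lt x := not_le.1 hlt
    have h2 : R ≤ |lt x| := by
      have := le_abs_self (lt x)
      linarith
    rw [hfar x h2] at hx
    exact hlt hx
  -- the sum on the two half spaces
  have hA : ∀ x : EE (k + 1), lt x ≤ T → su ι (pc (mk (0, 2 * T)) 1 (mi ι)) x = ι x := by
    intro x hx
    unfold su
    rw [pc_eq]
    have h1 : ι (mk (hd x, 2 * T - lt x)) = (mk (hd x, 2 * T - lt x), 0) := by
      apply hfar
      rw [lt_mk]
      have := le_abs_self (2 * T - lt x)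
      have h2 : T ≤ 2 * T - lt x := by linarith
      linarith
    have h2 : rf T (mk (hd x, 2 * T - lt x), (0 : EE (k + 1))) = (x, 0) := by
      unfold rf
      simp only [hd_mk, lt_mk, sub_sub_cancel, mk_hd_lt, map_zero, neg_zero]
      have h3 : ((0 : EE k), (0 : ℝ)) = 0 := rfl
      rw [h3, map_zero]
    rw [h1, h2, add_sub_cancel_right]
  have hB : ∀ x : EE (k + 1), T ≤ lt x →
      su ι (pc (mk (0, 2 * T)) 1 (mi ι)) x = rf T (ι (mk (hd x, 2 * T - lt x))) := by
    intro x hx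
    unfold su
    rw [pc_eq, hfar x (by
      have := le_abs_self (lt x)
      linarith), add_sub_cancel_left]
  constructor
  · rintro ⟨x, rfl⟩
    rcases le_total (lt x) T with hx | hx
    · left
      rw [hA x hx]
      exact ⟨hlow x hx, x, rfl⟩
    · right
      rw [hB x hx]
      refine ⟨?_, mk (hd x, 2 * T - lt x), (rf_rf T _).symm⟩
      rw [lt_rf]
      have h1 := hlow (mk (hd x, 2 * T - lt x)) (by rw [lt_mk]; linarith)
      linarith
  · rintro (⟨hw, x, rfl⟩ | ⟨hw, x', hx'⟩)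
    · exact ⟨x, hA x (hup x hw)⟩
    · have h1 : lt (ι x').1 = 2 * T - lt w.1 := by
        rw [hx', lt_rf]
      have h2 : lt x' ≤ T := hup x' (by linarith)
      refine ⟨mk (hd x', 2 * T - lt x'), ?_⟩
      rw [hB _ (by rw [lt_mk]; linarith), hd_mk, lt_mk]
      have h3 : (mk ((hd x', 2 * T - lt x').1, 2 * T - (hd x', 2 * T - lt x').2) :
          EE (k + 1)) = x' := by
        show mk (hd x', 2 * T - (2 * T - lt x')) = x'
        rw [sub_sub_cancel, mk_hd_lt]
      rw [h3, hx', rf_rf]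

end Pool.Agent.Helper11.LC
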